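import Pool.Agent.R887.PsF

/-!
Cycles of multi-valued maps between log canonical pairs: if the product of the degrees is below an
absolute bound, then the log canonical divisors have numerical dimension at most zero.
-/

set_option autoImplicit false

open FF Pool.Agent.W602.GT Pool.Agent.Y172 Pool.Agent.R887

/-- Let `(X i, Δ i)`, `i ∈ ι`, be finitely many projective log canonical pairs of dimension `n ≥ 1`,
with generic points `y i`, and `σ : ι → ι` a map (for instance a cyclic permutation, or the identity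
of a set with one element). For all `i` let `X (σ i) ← X'' i → X i` be a multi-valued map: a variety
`X'' i` with a generically finite rational map `p i` to `X (σ i)`, unramified over the prime
divisors `P` with `Δ (σ i) P < 1`, and a dominant rational map `f i` to `X i` such that the pull
back of `K + Δ i` by `f i` is at most `K_X''` over these prime divisors. Suppose that the
intersection number of `n - 1` pull backs by `f i` of hyperplane sections of `X i` and one pull back
by `p i` of a hyperplane section of `X (σ i)` is at most `c i deg (f i)`. If for some `r` the product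
of `c i`, `c (σ i)`, ..., `c (σ ^ (r - 1) i)` is less than one, for all `i`, then for all `i` the
numerical dimension of `K + Δ i` is less than one. -/
theorem Pool.Agent.Results.MP_c1e25c_ag.CorrespondenceCycles.result
    {ι : Type} [Finite ι] {K L : ι → Type} [∀ i, Field (K i)] [∀ i, Algebra ℂ (K i)]
    [∀ i, Field (L i)] [∀ i, Algebra ℂ (L i)] {N : ι → ℕ} {y : ∀ i, Fin (N i + 1) → K i} {n : ℕ}
    (hy : ∀ i, NormalModel (y i)) (hn : ∀ i, Algebra.trdeg ℂ (K i) = n) (hn0 : 0 < n)
    {Δ : ∀ i, Place ℂ (K i) → ℚ} (hΔ : ∀ i, Effective (y i) (Δ i))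
    (hLC : ∀ i, LogCanonical (y i) n (Δ i)) (σ : ι → ι) (φ : ∀ i, K i →ₐ[ℂ] L i)
    (ψ : ∀ i, K (σ i) →ₐ[ℂ] L i) (hψ : ∀ i, FiniteDimensional (ψ i).fieldRange (L i))
    (hun : ∀ i, UnramifiedOutside (ψ i) (y (σ i)) {P | 1 ≤ Δ (σ i) P})
    (hpb : ∀ i, MultiPullBackLe (φ i) (ψ i) (y i) n (Δ i) (y (σ i)) {P | 1 ≤ Δ (σ i) P})
    {c : ι → ℝ} (hc : ∀ i, MultiDegreeLe (φ i) (ψ i) (y i) (y (σ i)) (n - 1) 1 (c i)) {r : ℕ}
    (hr : ∀ i, ∏ l ∈ Finset.range r, c (σ^[l] i) < 1) (i : ι) : NumDimLt (y i) n (Δ i) 1 :=
  cycle_gap hy hn hn0 hΔ hLC σ φ ψ hψ hun hpb hc hr i
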