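import Pool.Agent.R887.Num

/-!
The numerical dimension of log canonical pairs is bounded by the growth of the degrees of the
rational maps from a fixed variety.
-/

set_option autoImplicit false

open FF Pool.Agent.W602.GT Pool.Agent.Y172 Pool.Agent.R887

/-- Let `(X, Δ)` be a projective log canonical pair of dimension `n`, with generic point `y`, let
`X'` be a normal projective variety of dimension `n`, with generic point `y'`, `S` a finite set of
prime divisors of `X'`, and `1 ≤ j ≤ n`. Suppose that for all `ε > 0` there is a dominant rational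
map `f : X' ⇢ X` with `f^* (K_X + Δ) ≤ K_X'` outside of `S`, such that the intersection number of
`n - j` pull backs of hyperplane sections of `X` and `j` hyperplane sections of `X'` is at most
`ε deg f`. Then the numerical dimension of `K_X + Δ` is less than `j`. -/
theorem Pool.Agent.Results.MP_c1e25c_ag.LogPairsDegreeGrowth.result
    {K K' : Type} [Field K] [Algebra ℂ K] [Field K'] [Algebra ℂ K'] {N N' n : ℕ}
    {y : Fin (N + 1) → K} {y' : Fin (N' + 1) → K'} (hy : NormalModel y) (hy' : NormalModel y')
    (hn : Algebra.trdeg ℂ K = n) (hn' : Algebra.trdeg ℂ K' = n) {Δ : Place ℂ K → ℚ}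
    (hLC : LogCanonical y n Δ) {j : ℕ} (hj0 : 1 ≤ j) (hj : j ≤ n) {S : Set (Place ℂ K')}
    (hS : S.Finite)
    (h : ∀ ε : ℝ, 0 < ε → ∃ φ : K →ₐ[ℂ] K', PullBackLe φ y n Δ y' S ∧
      MixedDegreeLe φ y y' (n - j) j ε) :
    NumDimLt y n Δ j :=
  numdim hy hy' hn hn' (by omega) hLC hj hS h
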